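import Pool.Agent.Lib.MP_89fcdb_gt.Interfaces

/-!
# MP_89fcdb_gt, module CB: the category of `B` is at most `2`
-/

open scoped BigOperators unitInterval
open Set Topology Pool.Agent.Lib.MP_904b2a_gt

namespace Pool.Agent.Lib.MP_89fcdb_gt.H55

noncomputable section

/-- The unnormalised first deformation. -/
def w1 (t s : ℝ) (u : ℂ × ℂ × ℂ) : ℂ × ℂ × ℂ :=
  (((1 - t : ℝ) : ℂ) * u.1, ((1 - t : ℝ) : ℂ) * u.2.1, ((1 - t : ℝ) : ℂ) * u.2.2 + ((t * s : ℝ) : ℂ))

theorem continuous_n3 : Continuous n3 := by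
  unfold n3
  have h1 : Continuous fun u : ℂ × ℂ × ℂ => Complex.normSq u.1 :=
    Complex.continuous_normSq.comp continuous_fst
  have h2 : Continuous fun u : ℂ × ℂ × ℂ => Complex.normSq u.2.1 :=
    Complex.continuous_normSq.comp (continuous_fst.comp continuous_snd)
  have h3 : Continuous fun u : ℂ × ℂ × ℂ => Complex.normSq u.2.2 :=
    Complex.continuous_normSq.comp (continuous_snd.comp continuous_snd)
  exact (h1.add h2).add h3

theorem n3_nonneg (u : ℂ × ℂ × ℂ) : 0 ≤ n3 u := by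
  unfold n3
  have := Complex.normSq_nonneg u.1
  have := Complex.normSq_nonneg u.2.1
  have := Complex.normSq_nonneg u.2.2
  positivity

theorem n3_pos_of_ne {u : ℂ × ℂ × ℂ} (h : u ≠ 0) : 0 < n3 u := by
  rcases (n3_nonneg u).lt_or_eq with h1 | h1
  · exact h1
  · exfalso
    apply h
    unfold n3 at h1
    have h2 := Complex.normSq_nonneg u.1
    have h3 := Complex.normSq_nonneg u.2.1
    have h4 := Complex.normSq_nonneg u.2.2
    refine Prod.ext ?_ (Prod.ext ?_ ?_)
    · exact Complex.normSq_eq_zero.mp (by linarith)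
    · exact Complex.normSq_eq_zero.mp (by linarith)
    · exact Complex.normSq_eq_zero.mp (by linarith)

theorem n3_smul (c : ℝ) (u : ℂ × ℂ × ℂ) : n3 (c • u) = c ^ 2 * n3 u := by
  unfold n3
  simp only [Prod.smul_fst, Prod.smul_snd, Complex.real_smul, Complex.normSq_mul,
    Complex.normSq_ofReal]
  ring

theorem w1_ne {t s : ℝ} {u : ℂ × ℂ × ℂ} (hs : s ^ 2 = 1) (hu : n3 u = 1)
    (h : u.2.2 ≠ -(s : ℂ)) : w1 t s u ≠ 0 := by
  intro h0
  have e1 : ((1 - t : ℝ) : ℂ) * u.1 = 0 := congrArg (fun x : ℂ × ℂ × ℂ => x.1) h0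
  have e2 : ((1 - t : ℝ) : ℂ) * u.2.1 = 0 := congrArg (fun x : ℂ × ℂ × ℂ => x.2.1) h0
  have e3 : ((1 - t : ℝ) : ℂ) * u.2.2 + ((t * s : ℝ) : ℂ) = 0 :=
    congrArg (fun x : ℂ × ℂ × ℂ => x.2.2) h0
  have f1 := congrArg Complex.normSq e1
  have f2 := congrArg Complex.normSq e2
  have e3' : ((1 - t : ℝ) : ℂ) * u.2.2 = -((t * s : ℝ) : ℂ) := eq_neg_of_add_eq_zero_left e3
  have f3 := congrArg Complex.normSq e3'
  simp only [Complex.normSq_mul, Complex.normSq_ofReal, Complex.normSq_neg,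
    Complex.normSq_zero] at f1 f2 f3
  have hs2 : (t * s) * (t * s) = t * t := by
    have : (t * s) * (t * s) = t * t * s ^ 2 := by ring
    rw [this, hs, mul_one]
  rw [hs2] at f3
  unfold n3 at hu
  have f4 : (1 - t) * (1 - t) = t * t := by
    have : (1 - t) * (1 - t) * (Complex.normSq u.1 + Complex.normSq u.2.1 + Complex.normSq u.2.2)
        = t * t := by
      linear_combination f1 + f2 + f3
    rwa [hu, mul_one] at this
  have ht : t = 1 / 2 := by linarith
  subst ht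
  apply h
  have hh : ((1 - 1 / 2 : ℝ) : ℂ) = 1 / 2 := by push_cast; norm_num
  rw [hh] at e3'
  push_cast at e3'
  linear_combination 2 * e3'

theorem continuous_w1 : Continuous fun p : ℝ × ℝ × (ℂ × ℂ × ℂ) => w1 p.1 p.2.1 p.2.2 := by
  unfold w1
  fun_prop

theorem mem_smul {r : ℝ} {z : ℂ} {u : ℂ × ℂ × ℂ} {v : ℂ × ℂ × ℂ} (c : ℂ)
    (h1 : v.1 = c * u.1) (h2 : v.2.1 = c * u.2.1)
    (h3 : z * u.2.1 = (1 - r) * u.1) (h4 : (starRingEnd ℂ) z * u.1 = (1 + r) * u.2.1) :
    z * v.2.1 = (1 - r) * v.1 ∧ (starRingEnd ℂ) z * v.1 = (1 + r) * v.2.1 := by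
  rw [h1, h2]
  constructor
  · linear_combination c * h3
  · linear_combination c * h4

/-- The normalised vector. -/
def nrm (u : ℂ × ℂ × ℂ) : ℂ × ℂ × ℂ := (Real.sqrt (n3 u))⁻¹ • u

theorem n3_nrm {u : ℂ × ℂ × ℂ} (h : u ≠ 0) : n3 (nrm u) = 1 := by
  unfold nrm
  have h1 := n3_pos_of_ne h
  rw [n3_smul, inv_pow, Real.sq_sqrt h1.le, inv_mul_cancel₀ h1.ne']

section Deform

variable {X : Type} [TopologicalSpace X] (f : C(X, B)) (s δ : C(X, ℝ))

/-- First homotopy. -/
def hom1 (hs : ∀ x, s x ^ 2 = 1) (h : ∀ x, (f x).1.2.2.2.2 ≠ -(s x : ℂ)) : C(I × X, B) where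
  toFun p := ⟨((f p.2).1.1, (f p.2).1.2.1, nrm (w1 p.1 (s p.2) (f p.2).1.2.2)), by
    have hb := (f p.2).2
    refine ⟨hb.1, n3_nrm (w1_ne (hs _) hb.2.1 (h _)), ?_⟩
    refine mem_smul (((Real.sqrt (n3 (w1 p.1 (s p.2) (f p.2).1.2.2)))⁻¹ : ℝ) * ((1 - p.1 : ℝ) : ℂ))
      ?_ ?_ hb.2.2.1 hb.2.2.2
    · simp [nrm, w1]
      ring
    · simp [nrm, w1]
      ring⟩
  continuous_toFun := by
    have hf : Continuous fun p : I × X => (f p.2).1 :=
      continuous_subtype_val.comp (f.continuous.comp continuous_snd)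
    have hw : Continuous fun p : I × X => w1 p.1 (s p.2) (f p.2).1.2.2 :=
      continuous_w1.comp ((continuous_subtype_val.comp continuous_fst).prodMk
        ((s.continuous.comp continuous_snd).prodMk (continuous_snd.comp (continuous_snd.comp hf))))
    have hn : Continuous fun p : I × X => nrm (w1 p.1 (s p.2) (f p.2).1.2.2) := by
      unfold nrm
      refine Continuous.smul (Continuous.inv₀ ((continuous_n3.comp hw).sqrt) ?_) hw
      intro p
      exact (Real.sqrt_pos.mpr (n3_pos_of_ne (w1_ne (hs _) (f p.2).2.2.1 (h _)))).ne'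
    exact Continuous.subtype_mk ((continuous_fst.comp hf).prodMk
      ((continuous_fst.comp (continuous_snd.comp hf)).prodMk hn)) _

/-- The intermediate map. -/
def mid (hs : ∀ x, s x ^ 2 = 1) : C(X, B) where
  toFun x := ⟨((f x).1.1, (f x).1.2.1, (0, 0, (s x : ℂ))), by
    refine ⟨(f x).2.1, ?_, ?_, ?_⟩
    · unfold n3
      simp only [map_zero, Complex.normSq_ofReal]
      have := hs x
      linarith [sq (s x)]
    · simp
    · simp⟩
  continuous_toFun := by
    refine Continuous.subtype_mk ?_ _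
    fun_prop

theorem sqrt_one' {a : ℝ} (h : a = 1) : Real.sqrt a = 1 := by rw [h, Real.sqrt_one]

theorem homotopic_mid (hs : ∀ x, s x ^ 2 = 1) (h : ∀ x, (f x).1.2.2.2.2 ≠ -(s x : ℂ)) :
    f.Homotopic (mid f s hs) := by
  refine ⟨⟨hom1 f s hs h, ?_, ?_⟩⟩
  · intro x
    apply Subtype.ext
    change ((f x).1.1, (f x).1.2.1, nrm (w1 ((0 : I) : ℝ) (s x) (f x).1.2.2)) = (f x).1
    have e : w1 ((0 : I) : ℝ) (s x) (f x).1.2.2 = (f x).1.2.2 := by
      simp [w1]
    rw [e]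
    unfold nrm
    rw [(f x).2.2.1, Real.sqrt_one, inv_one, one_smul]
  · intro x
    apply Subtype.ext
    change ((f x).1.1, (f x).1.2.1, nrm (w1 ((1 : I) : ℝ) (s x) (f x).1.2.2)) =
      ((f x).1.1, (f x).1.2.1, (0, 0, (s x : ℂ)))
    have e : w1 ((1 : I) : ℝ) (s x) (f x).1.2.2 = (0, 0, (s x : ℂ)) := by
      simp [w1]
    have e2 : n3 ((0, 0, (s x : ℂ)) : ℂ × ℂ × ℂ) = 1 := by
      unfold n3
      simp only [map_zero, Complex.normSq_ofReal]
      linarith [sq (s x), hs x]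
    rw [e]
    unfold nrm
    rw [e2, Real.sqrt_one, inv_one, one_smul]

/-- Squared norm on `ℝ × ℂ`. -/
def m2 (a : ℝ × ℂ) : ℝ := a.1 ^ 2 + Complex.normSq a.2

theorem continuous_m2 : Continuous m2 := by
  unfold m2
  exact (continuous_fst.pow 2).add (Complex.continuous_normSq.comp continuous_snd)

/-- Second deformation, unnormalised. -/
def w2 (t d : ℝ) (a : ℝ × ℂ) : ℝ × ℂ := ((1 - t) * a.1 + t * d, ((1 - t : ℝ) : ℂ) * a.2)

theorem continuous_w2 : Continuous fun p : ℝ × ℝ × (ℝ × ℂ) => w2 p.1 p.2.1 p.2.2 := by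
  unfold w2
  fun_prop

theorem w2_pos {t d : ℝ} {a : ℝ × ℂ} (hd : d ^ 2 = 1) (ha : a.1 ^ 2 + Complex.normSq a.2 = 1)
    (h : a.1 ≠ -d) : 0 < m2 (w2 t d a) := by
  have h1 : m2 (w2 t d a) = (1 - t) ^ 2 + t ^ 2 + 2 * t * (1 - t) * (a.1 * d) := by
    unfold m2 w2
    simp only [Complex.normSq_mul, Complex.normSq_ofReal]
    linear_combination (1 - t) ^ 2 * ha + t ^ 2 * hd
  have h2 : -1 < a.1 * d := by
    have h3 : Complex.normSq a.2 ≥ 0 := Complex.normSq_nonneg _
    have h4 : (a.1 + d) ^ 2 > 0 := by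
      have : a.1 + d ≠ 0 := fun h5 => h (by linarith)
      positivity
    nlinarith
  have h3 : a.1 * d ≤ 1 := by
    have h3 : Complex.normSq a.2 ≥ 0 := Complex.normSq_nonneg _
    nlinarith [sq_nonneg (a.1 - d)]
  rw [h1]
  set c := a.1 * d
  -- (1-t)^2 + t^2 + 2t(1-t)c = (1+c)/2 + (1-c)/2 * (1-2t)^2
  have h4 : (1 - t) ^ 2 + t ^ 2 + 2 * t * (1 - t) * c = (1 + c) / 2 + (1 - c) / 2 * (1 - 2 * t) ^ 2 := by
    ring
  rw [h4]
  have h5 : 0 ≤ (1 - c) / 2 * (1 - 2 * t) ^ 2 := mul_nonneg (by linarith) (sq_nonneg _)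
  linarith

/-- Normalisation on `ℝ × ℂ`. -/
def nrm2 (a : ℝ × ℂ) : ℝ × ℂ := (Real.sqrt (m2 a))⁻¹ • a

theorem m2_nrm2 {a : ℝ × ℂ} (h : 0 < m2 a) : (nrm2 a).1 ^ 2 + Complex.normSq (nrm2 a).2 = 1 := by
  have h1 : (nrm2 a).1 ^ 2 + Complex.normSq (nrm2 a).2 = ((Real.sqrt (m2 a))⁻¹) ^ 2 * m2 a := by
    unfold nrm2 m2
    simp only [Prod.smul_fst, Prod.smul_snd, Complex.real_smul, Complex.normSq_mul,
      Complex.normSq_ofReal, smul_eq_mul]
    ring
  rw [h1, inv_pow, Real.sq_sqrt h.le, inv_mul_cancel₀ h.ne']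

/-- Second homotopy. -/
def hom2 (hs : ∀ x, s x ^ 2 = 1) (hd : ∀ x, δ x ^ 2 = 1) (h : ∀ x, (f x).1.1 ≠ -δ x) :
    C(I × X, B) where
  toFun p := ⟨((nrm2 (w2 p.1 (δ p.2) ((f p.2).1.1, (f p.2).1.2.1))).1,
      (nrm2 (w2 p.1 (δ p.2) ((f p.2).1.1, (f p.2).1.2.1))).2, (0, 0, (s p.2 : ℂ))), by
    refine ⟨m2_nrm2 (w2_pos (hd _) (f p.2).2.1 (h _)), ?_, ?_, ?_⟩
    · unfold n3
      simp only [map_zero, Complex.normSq_ofReal]
      linarith [sq (s p.2), hs p.2]
    · simp
    · simp⟩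
  continuous_toFun := by
    have hf : Continuous fun p : I × X => (f p.2).1 :=
      continuous_subtype_val.comp (f.continuous.comp continuous_snd)
    have hw : Continuous fun p : I × X => w2 p.1 (δ p.2) ((f p.2).1.1, (f p.2).1.2.1) :=
      continuous_w2.comp ((continuous_subtype_val.comp continuous_fst).prodMk
        ((δ.continuous.comp continuous_snd).prodMk ((continuous_fst.comp hf).prodMk
          (continuous_fst.comp (continuous_snd.comp hf)))))
    have hn : Continuous fun p : I × X =>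
        nrm2 (w2 p.1 (δ p.2) ((f p.2).1.1, (f p.2).1.2.1)) := by
      unfold nrm2
      refine Continuous.smul (Continuous.inv₀ ((continuous_m2.comp hw).sqrt) ?_) hw
      intro p
      exact (Real.sqrt_pos.mpr (w2_pos (hd _) (f p.2).2.1 (h _))).ne'
    have hs' : Continuous fun p : I × X => ((s p.2 : ℝ) : ℂ) :=
      Complex.continuous_ofReal.comp (s.continuous.comp continuous_snd)
    exact Continuous.subtype_mk ((continuous_fst.comp hn).prodMk
      ((continuous_snd.comp hn).prodMk (continuous_const.prodMk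
        (continuous_const.prodMk hs')))) _

/-- The final map. -/
def fin (hs : ∀ x, s x ^ 2 = 1) (hd : ∀ x, δ x ^ 2 = 1) : C(X, B) where
  toFun x := ⟨(δ x, 0, (0, 0, (s x : ℂ))), by
    refine ⟨?_, ?_, ?_, ?_⟩
    · simpa using hd x
    · unfold n3
      simp only [map_zero, Complex.normSq_ofReal]
      linarith [sq (s x), hs x]
    · simp
    · simp⟩
  continuous_toFun := by
    refine Continuous.subtype_mk ?_ _
    fun_prop

theorem mid_homotopic_fin (hs : ∀ x, s x ^ 2 = 1) (hd : ∀ x, δ x ^ 2 = 1)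
    (h : ∀ x, (f x).1.1 ≠ -δ x) : (mid f s hs).Homotopic (fin s δ hs hd) := by
  refine ⟨⟨hom2 f s δ hs hd h, ?_, ?_⟩⟩
  · intro x
    apply Subtype.ext
    change ((nrm2 (w2 ((0 : I) : ℝ) (δ x) ((f x).1.1, (f x).1.2.1))).1,
      (nrm2 (w2 ((0 : I) : ℝ) (δ x) ((f x).1.1, (f x).1.2.1))).2, (0, 0, (s x : ℂ))) =
      ((f x).1.1, (f x).1.2.1, (0, 0, (s x : ℂ)))
    have e : w2 ((0 : I) : ℝ) (δ x) ((f x).1.1, (f x).1.2.1) = ((f x).1.1, (f x).1.2.1) := by
      simp [w2]
    have e2 : m2 ((f x).1.1, (f x).1.2.1) = 1 := (f x).2.1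
    rw [e]
    unfold nrm2
    rw [e2, Real.sqrt_one, inv_one, one_smul]
  · intro x
    apply Subtype.ext
    change ((nrm2 (w2 ((1 : I) : ℝ) (δ x) ((f x).1.1, (f x).1.2.1))).1,
      (nrm2 (w2 ((1 : I) : ℝ) (δ x) ((f x).1.1, (f x).1.2.1))).2, (0, 0, (s x : ℂ))) =
      (δ x, 0, (0, 0, (s x : ℂ)))
    have e : w2 ((1 : I) : ℝ) (δ x) ((f x).1.1, (f x).1.2.1) = (δ x, 0) := by
      simp [w2]
    have e2 : m2 (δ x, 0) = 1 := by
      simpa [m2] using hd x
    rw [e]
    unfold nrm2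
    rw [e2, Real.sqrt_one, inv_one, one_smul]

/-- The general deformation lemma. -/
theorem homotopic_fin (hs : ∀ x, s x ^ 2 = 1) (hd : ∀ x, δ x ^ 2 = 1)
    (h1 : ∀ x, (f x).1.2.2.2.2 ≠ -(s x : ℂ)) (h2 : ∀ x, (f x).1.1 ≠ -δ x) :
    f.Homotopic (fin s δ hs hd) :=
  (homotopic_mid f s hs h1).trans (mid_homotopic_fin f s δ hs hd h2)

end Deform

/-- The four special points. -/
def pt (s d : ℝ) (hs : s ^ 2 = 1) (hd : d ^ 2 = 1) : B :=
  ⟨(d, 0, (0, 0, (s : ℂ))), by
    refine ⟨by simpa using hd, ?_, by simp, by simp⟩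
    unfold n3
    simp only [map_zero, Complex.normSq_ofReal]
    linarith [sq s]⟩

theorem nullhomotopic_of {X : Type} [TopologicalSpace X] (f : C(X, B)) (s d : ℝ) (hs : s ^ 2 = 1)
    (hd : d ^ 2 = 1) (h1 : ∀ x, (f x).1.2.2.2.2 ≠ -(s : ℂ)) (h2 : ∀ x, (f x).1.1 ≠ -d) :
    f.Homotopic (ContinuousMap.const X (pt s d hs hd)) := by
  have := homotopic_fin f (ContinuousMap.const X s) (ContinuousMap.const X d) (fun _ => hs)
    (fun _ => hd) h1 h2
  exact this

/-- A point of `B` with `r = 0` and `u₃ = 0`. -/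
def base : B := ⟨(0, 1, (((Real.sqrt 2)⁻¹ : ℝ), ((Real.sqrt 2)⁻¹ : ℝ), 0)), by
  refine ⟨by simp, ?_, by simp, by simp⟩
  unfold n3
  simp only [map_zero, Complex.normSq_ofReal]
  have h : (Real.sqrt 2)⁻¹ * (Real.sqrt 2)⁻¹ = 1 / 2 := by
    rw [← mul_inv, Real.mul_self_sqrt (by norm_num)]
    norm_num
  rw [h]
  norm_num⟩

theorem joined_base (s d : ℝ) (hs : s ^ 2 = 1) (hd : d ^ 2 = 1) : Joined base (pt s d hs hd) := by
  have hs0 : s ≠ 0 := by rintro rfl; norm_num at hs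
  have hd0 : d ≠ 0 := by rintro rfl; norm_num at hd
  obtain ⟨F⟩ := nullhomotopic_of (ContinuousMap.const Unit base) s d hs hd
    (fun _ => by
      change (0 : ℂ) ≠ -(s : ℂ)
      intro h
      exact hs0 (by exact_mod_cast neg_eq_zero.mp h.symm))
    (fun _ => by
      change (0 : ℝ) ≠ -d
      intro h
      exact hd0 (neg_eq_zero.mp h.symm))
  exact ⟨F.evalAt ()⟩

theorem normSq_le_of_n3 {u : ℂ × ℂ × ℂ} (h : n3 u = 1) : Complex.normSq u.2.2 ≤ 1 := by
  unfold n3 at h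
  have := Complex.normSq_nonneg u.1
  have := Complex.normSq_nonneg u.2.1
  linarith

/-- The comparison function. -/
def gB : C(B, ℝ) := ⟨fun b => 2 * (1 + b.1.1) - Complex.normSq (b.1.2.2.2.2 + 1), by
    have : Continuous fun b : B => b.1.2.2.2.2 + 1 := by fun_prop
    have h2 : Continuous fun b : B => Complex.normSq (b.1.2.2.2.2 + 1) :=
      Complex.continuous_normSq.comp this
    fun_prop⟩

theorem gB_pos {b : B} (h : 0 < gB b) : b.1.2.2.2.2 ≠ 1 ∧ b.1.1 ≠ -1 := by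
  change 0 < 2 * (1 + b.1.1) - Complex.normSq (b.1.2.2.2.2 + 1) at h
  have hr : b.1.1 ≤ 1 := by
    have := b.2.1
    have h3 := Complex.normSq_nonneg b.1.2.1
    nlinarith [sq_nonneg (b.1.1 - 1)]
  constructor
  · intro h1
    rw [h1] at h
    have : Complex.normSq ((1 : ℂ) + 1) = 4 := by
      rw [Complex.normSq_apply]; norm_num
    rw [this] at h
    linarith
  · intro h1
    rw [h1] at h
    have := Complex.normSq_nonneg (b.1.2.2.2.2 + 1)
    linarith

theorem normSq_add_one (c : ℂ) (h : Complex.normSq c ≤ 1) (h4 : 4 ≤ Complex.normSq (c + 1)) :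
    c = 1 := by
  rw [Complex.normSq_apply] at h h4
  simp only [Complex.add_re, Complex.one_re, Complex.add_im, Complex.one_im, add_zero] at h4
  have h5 : c.re = 1 := by nlinarith [sq_nonneg (c.re - 1), mul_self_nonneg c.im]
  have h6 : c.im = 0 := by
    rw [h5] at h
    have : c.im * c.im ≤ 0 := by linarith
    exact mul_self_eq_zero.mp (le_antisymm this (mul_self_nonneg _))
  exact Complex.ext h5 h6

theorem gB_neg {b : B} (h : gB b < 0) : b.1.2.2.2.2 ≠ -1 ∧ b.1.1 ≠ 1 := by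
  change 2 * (1 + b.1.1) - Complex.normSq (b.1.2.2.2.2 + 1) < 0 at h
  have hr : -1 ≤ b.1.1 := by
    have := b.2.1
    have h3 := Complex.normSq_nonneg b.1.2.1
    nlinarith [sq_nonneg (b.1.1 + 1)]
  constructor
  · intro h1
    rw [h1] at h
    simp at h
    linarith
  · intro h1
    rw [h1] at h
    have h5 := normSq_add_one _ (normSq_le_of_n3 b.2.2.1) (by linarith)
    rw [h5] at h
    have : Complex.normSq ((1 : ℂ) + 1) = 4 := by
      rw [Complex.normSq_apply]; norm_num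
    rw [this] at h
    linarith

theorem catB : CatBStatement := by
  have h1 : (1 : ℝ) ^ 2 = 1 := by norm_num
  have hm : (-1 : ℝ) ^ 2 = 1 := by norm_num
  refine ⟨![{b : B | b.1.2.2.2.2 ≠ -1 ∧ b.1.1 ≠ -1}, {b : B | gB b ≠ 0},
    {b : B | b.1.2.2.2.2 ≠ 1 ∧ b.1.1 ≠ 1}], ?_, ?_, ?_⟩
  · intro i
    fin_cases i
    · change IsOpen {b : B | b.1.2.2.2.2 ≠ -1 ∧ b.1.1 ≠ -1}
      exact (isOpen_ne_fun (by fun_prop) continuous_const).inter
        (isOpen_ne_fun (by fun_prop) continuous_const)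
    · change IsOpen {b : B | gB b ≠ 0}
      exact isOpen_ne_fun gB.continuous continuous_const
    · change IsOpen {b : B | b.1.2.2.2.2 ≠ 1 ∧ b.1.1 ≠ 1}
      exact (isOpen_ne_fun (by fun_prop) continuous_const).inter
        (isOpen_ne_fun (by fun_prop) continuous_const)
  · intro i
    fin_cases i
    · refine ⟨_, nullhomotopic_of _ 1 1 h1 h1 (fun x => ?_) (fun x => x.2.2)⟩
      intro h
      apply x.2.1
      rw [Complex.ofReal_one] at h
      exact h
    · change ContractibleIn {b : B | gB b ≠ 0}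
      -- the sign function
      let d : C({b : B | gB b ≠ 0}, ℝ) := ⟨fun b => gB b.1 / |gB b.1|, by
        refine Continuous.div (by fun_prop) (by fun_prop) ?_
        intro b
        exact abs_ne_zero.mpr b.2⟩
      have hd : ∀ x, d x ^ 2 = 1 := by
        intro x
        change (gB x.1 / |gB x.1|) ^ 2 = 1
        rw [div_pow, sq_abs]
        exact div_self (pow_ne_zero 2 x.2)
      have hd' : ∀ x, (0 < gB x.1 ∧ d x = 1) ∨ (gB x.1 < 0 ∧ d x = -1) := by
        intro x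
        rcases lt_or_gt_of_ne x.2 with h | h
        · right
          refine ⟨h, ?_⟩
          change gB x.1 / |gB x.1| = -1
          rw [abs_of_neg h, div_neg, div_self x.2]
        · left
          refine ⟨h, ?_⟩
          change gB x.1 / |gB x.1| = 1
          rw [abs_of_pos h, div_self x.2]
      have hnd : ∀ x, (-d) x ^ 2 = 1 := by
        intro x
        change (-(d x)) ^ 2 = 1
        rw [neg_sq, hd]
      have key := homotopic_fin (⟨Subtype.val, continuous_subtype_val⟩ : C({b : B | gB b ≠ 0}, B))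
        (-d) d hnd hd (by
          intro x
          change x.1.1.2.2.2.2 ≠ -((-(d x) : ℝ) : ℂ)
          rcases hd' x with ⟨h, h2⟩ | ⟨h, h2⟩
          · rw [h2]
            push_cast
            rw [neg_neg]
            exact (gB_pos h).1
          · rw [h2]
            push_cast
            rw [neg_neg]
            exact (gB_neg h).1) (by
          intro x
          change x.1.1.1 ≠ -(d x)
          rcases hd' x with ⟨h, h2⟩ | ⟨h, h2⟩
          · rw [h2]
            exact (gB_pos h).2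
          · rw [h2, neg_neg]
            exact (gB_neg h).2)
      -- a path between the two points
      obtain ⟨γ⟩ := (joined_base 1 (-1) h1 hm).symm.trans (joined_base (-1) 1 hm h1)
      refine ⟨pt 1 (-1) h1 hm, key.trans ?_⟩
      refine ⟨⟨⟨fun p => γ.extend ((1 - (p.1 : ℝ)) * ((1 + d p.2) / 2)), by fun_prop⟩, ?_, ?_⟩⟩
      · intro x
        change γ.extend ((1 - ((0 : I) : ℝ)) * ((1 + d x) / 2)) = fin (-d) d hnd hd x
        rcases hd' x with ⟨h, h2⟩ | ⟨h, h2⟩
        · have e1 : (1 - ((0 : I) : ℝ)) * ((1 + d x) / 2) = 1 := by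
            rw [h2]; simp
          rw [e1, Path.extend_one]
          apply Subtype.ext
          change ((1 : ℝ), (0 : ℂ), ((0 : ℂ), (0 : ℂ), ((-1 : ℝ) : ℂ))) =
            (d x, (0 : ℂ), ((0 : ℂ), (0 : ℂ), ((-(d x) : ℝ) : ℂ)))
          rw [h2]
        · have e1 : (1 - ((0 : I) : ℝ)) * ((1 + d x) / 2) = 0 := by
            rw [h2]; simp
          rw [e1, Path.extend_zero]
          apply Subtype.ext
          change ((-1 : ℝ), (0 : ℂ), ((0 : ℂ), (0 : ℂ), ((1 : ℝ) : ℂ))) =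
            (d x, (0 : ℂ), ((0 : ℂ), (0 : ℂ), ((-(d x) : ℝ) : ℂ)))
          rw [h2, neg_neg]
      · intro x
        change γ.extend ((1 - ((1 : I) : ℝ)) * ((1 + d x) / 2)) = pt 1 (-1) h1 hm
        have e1 : (1 - ((1 : I) : ℝ)) * ((1 + d x) / 2) = 0 := by simp
        rw [e1, Path.extend_zero]
    · refine ⟨_, nullhomotopic_of _ (-1) (-1) hm hm (fun x => ?_) (fun x => ?_)⟩
      · intro h
        apply x.2.1
        rw [Complex.ofReal_neg, Complex.ofReal_one, neg_neg] at h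
        exact h
      · intro h
        apply x.2.2
        rw [neg_neg] at h
        exact h
  · rw [eq_univ_iff_forall]
    intro b
    rw [mem_iUnion]
    by_cases h0 : b.1.2.2.2.2 ≠ -1 ∧ b.1.1 ≠ -1
    · exact ⟨0, h0⟩
    by_cases h2 : b.1.2.2.2.2 ≠ 1 ∧ b.1.1 ≠ 1
    · exact ⟨2, h2⟩
    refine ⟨1, ?_⟩
    change gB b ≠ 0
    change 2 * (1 + b.1.1) - Complex.normSq (b.1.2.2.2.2 + 1) ≠ 0
    have h4 : Complex.normSq ((1 : ℂ) + 1) = 4 := by
      rw [Complex.normSq_apply]; norm_num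
    rw [not_and_or, not_not, not_not] at h0 h2
    rcases h0 with h | h <;> rcases h2 with h' | h'
    · rw [h] at h'
      norm_num at h'
    · rw [h, h']
      simp
    · rw [h, h', h4]
      norm_num
    · rw [h] at h'
      norm_num at h'

end

end Pool.Agent.Lib.MP_89fcdb_gt.H55
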